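import Mathlib

set_option autoImplicit false

namespace Pool.Agent.H890Z.Quad

open Finset

/-- One step of the walk with weights `μ`, steps `v`, killed outside `D`. -/
noncomputable def Qop {ι G : Type} [Fintype ι] [Add G] (μ : ι → ℝ) (v : ι → G) (D : Set G)
    (f : G → ℝ) : G → ℝ := fun x => ∑ i, μ i * D.indicator f (x + v i)

/-- `n` steps of the killed walk. -/
noncomputable def Qn {ι G : Type} [Fintype ι] [Add G] (μ : ι → ℝ) (v : ι → G) (D : Set G)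
    (n : ℕ) (f : G → ℝ) : G → ℝ := (Qop μ v D)^[n] f

/-- indicator function of a set -/
noncomputable def ind {G : Type} (A : Set G) : G → ℝ := A.indicator (fun _ => 1)

/-- Positive weights of total mass one, small steps, not contained in a half-plane. -/
structure Good {ι : Type} [Fintype ι] (μ : ι → ℝ) (v : ι → ℤ × ℤ) : Prop where
  pos : ∀ i, 0 < μ i
  sum1 : ∑ i, μ i = 1
  small : ∀ i, |(v i).1| ≤ 1 ∧ |(v i).2| ≤ 1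
  ns : ∀ a b : ℝ, (a ≠ 0 ∨ b ≠ 0) → ∃ i, a * ((v i).1 : ℝ) + b * ((v i).2 : ℝ) < 0

section moments
variable {ι : Type} [Fintype ι] (μ : ι → ℝ) (v : ι → ℤ × ℤ)

noncomputable def m1 : ℝ := ∑ i, μ i * ((v i).1 : ℝ)
noncomputable def m2 : ℝ := ∑ i, μ i * ((v i).2 : ℝ)
noncomputable def s11 : ℝ := ∑ i, μ i * ((v i).1 : ℝ) ^ 2
noncomputable def s22 : ℝ := ∑ i, μ i * ((v i).2 : ℝ) ^ 2
noncomputable def s12 : ℝ := ∑ i, μ i * (((v i).1 : ℝ) * ((v i).2 : ℝ))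
/-- opening angle of the normalised cone -/
noncomputable def th : ℝ := Real.arccos (-(s12 μ v / Real.sqrt (s11 μ v * s22 μ v)))
/-- the exponent of the cone -/
noncomputable def pp : ℝ := Real.pi / th μ v
/-- normalising linear map of the plane to the complex numbers -/
noncomputable def zc (X Y : ℝ) : ℂ :=
  ((X / Real.sqrt (s11 μ v) : ℝ) : ℂ) * Complex.exp (-((th μ v / 2 : ℝ) : ℂ) * Complex.I) +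
  ((Y / Real.sqrt (s22 μ v) : ℝ) : ℂ) * Complex.exp (((th μ v / 2 : ℝ) : ℂ) * Complex.I)

end moments

/-- the quadrant -/
def K : Set (ℤ × ℤ) := {z | 0 ≤ z.1 ∧ 0 ≤ z.2}

/-- the box `z + [0,N)^2` -/
def box (z : ℤ × ℤ) (N : ℕ) : Set (ℤ × ℤ) :=
  {x | z.1 ≤ x.1 ∧ x.1 < z.1 + N ∧ z.2 ≤ x.2 ∧ x.2 < z.2 + N}

/-- points with both coordinates in `[r,R]` -/
def bulk (r R : ℝ) : Set (ℤ × ℤ) :=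
  {z | r ≤ (z.1 : ℝ) ∧ r ≤ (z.2 : ℝ) ∧ (z.1 : ℝ) ≤ R ∧ (z.2 : ℝ) ≤ R}

/-- the end weight left after tilting -/
noncomputable def wt (x y : ℝ) : ℤ × ℤ → ℝ := fun z => x ^ (-z.1) * y ^ (-z.2)

/-- `A n = n ^ (-α + o(1))` -/
def Expo (A : ℕ → ℝ) (α : ℝ) : Prop :=
  ∀ ε : ℝ, 0 < ε → ∀ᶠ n : ℕ in Filter.atTop,
    (n : ℝ) ^ (-α - ε) ≤ A n ∧ A n ≤ (n : ℝ) ^ (-α + ε)

/-- geometry of the normalised cone -/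
def S_geo : Prop := ∀ (ι : Type) [Fintype ι] (μ : ι → ℝ) (v : ι → ℤ × ℤ), Good μ v →
  m1 μ v = 0 → m2 μ v = 0 →
  0 < th μ v ∧ th μ v < Real.pi ∧ 0 < s11 μ v ∧ 0 < s22 μ v ∧
  (∃ c C : ℝ, 0 < c ∧ 0 < C ∧ ∀ X Y : ℝ, 0 ≤ X → 0 ≤ Y →
    c * (X + Y) ≤ (zc μ v X Y).re ∧ ‖zc μ v X Y‖ ≤ C * (X + Y) ∧
    |Complex.arg (zc μ v X Y)| ≤ th μ v / 2) ∧
  (∀ e : ℝ, 0 < e → ∃ κ : ℝ, 0 < κ ∧ ∀ X Y : ℝ, 0 ≤ X → 0 ≤ Y →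
    |Complex.arg (zc μ v X Y)| ≤ th μ v / 2 - e → κ * (X + Y) ≤ X ∧ κ * (X + Y) ≤ Y) ∧
  (∀ e R : ℝ, 0 < e → ∃ X Y : ℕ, R ≤ (X : ℝ) + (Y : ℝ) ∧
    |Complex.arg (zc μ v X Y)| ≤ e)

/-- one-step averages of `Re z^a` and `‖z‖^a` -/
def S_avg : Prop := ∀ (ι : Type) [Fintype ι] (μ : ι → ℝ) (v : ι → ℤ × ℤ), Good μ v →
  m1 μ v = 0 → m2 μ v = 0 → ∀ a : ℝ, 0 < a →
  ∃ C σ R : ℝ, 0 < C ∧ 0 < σ ∧ ∀ X Y : ℝ, 0 ≤ X → 0 ≤ Y → R ≤ X + Y →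
    |∑ i, μ i * (zc μ v (X + (v i).1) (Y + (v i).2) ^ (a : ℂ)).re - (zc μ v X Y ^ (a : ℂ)).re|
      ≤ C * ‖zc μ v X Y‖ ^ (a - 3) ∧
    |∑ i, μ i * ‖zc μ v (X + (v i).1) (Y + (v i).2)‖ ^ a - ‖zc μ v X Y‖ ^ a
      - σ * ‖zc μ v X Y‖ ^ (a - 2)| ≤ C * ‖zc μ v X Y‖ ^ (a - 3)

/-- upper bound for survival -/
def S_su : Prop := ∀ (ι : Type) [Fintype ι] (μ : ι → ℝ) (v : ι → ℤ × ℤ), Good μ v →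
  m1 μ v = 0 → m2 μ v = 0 → ∀ a : ℝ, 0 < a → a < pp μ v →
  ∃ C : ℝ, 0 < C ∧ ∀ (n : ℕ) (z : ℤ × ℤ), z ∈ K →
    Qn μ v K n (fun _ => 1) z ≤ C * ((z.1 : ℝ) + z.2 + 1) ^ a / ((n : ℝ) + 1) ^ (a / 2)

/-- a subharmonic function living in a subcone -/
def S_sub : Prop := ∀ (ι : Type) [Fintype ι] (μ : ι → ℝ) (v : ι → ℤ × ℤ), Good μ v →
  m1 μ v = 0 → m2 μ v = 0 → ∀ a : ℝ, pp μ v < a →
  ∃ (V : ℤ × ℤ → ℝ) (C κ : ℝ) (x0 : ℤ × ℤ), 0 < C ∧ 0 < κ ∧ x0 ∈ K ∧ 1 ≤ V x0 ∧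
    ∀ z ∈ K, 0 ≤ V z ∧ V z ≤ C * ((z.1 : ℝ) + z.2 + 1) ^ a ∧ V z ≤ Qop μ v K V z ∧
      (0 < V z → κ * ((z.1 : ℝ) + z.2) ≤ z.1 ∧ κ * ((z.1 : ℝ) + z.2) ≤ z.2)

/-- binomial bounds -/
def S_bin : Prop :=
  (∀ k j : ℕ, (k.choose j : ℝ) / 2 ^ k ≤ 1 / Real.sqrt ((k : ℝ) + 1)) ∧
  (∀ A : ℝ, 0 < A → ∃ c : ℝ, 0 < c ∧ ∃ k0 : ℕ, ∀ k : ℕ, k0 ≤ k → ∀ j : ℤ,
    |(j : ℝ) - (k : ℝ) / 2| ≤ A * Real.sqrt k →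
      0 ≤ j ∧ j ≤ k ∧ c / Real.sqrt k ≤ (k.choose j.toNat : ℝ) / 2 ^ k)

/-- local upper bound for the free walk -/
def S_lu : Prop := ∀ (ι : Type) [Fintype ι] (μ : ι → ℝ) (v : ι → ℤ × ℤ), Good μ v →
  ∃ C : ℝ, 0 < C ∧ ∀ (m : ℕ) (x z : ℤ × ℤ),
    Qn μ v Set.univ m (ind {z}) x ≤ C / ((m : ℝ) + 1)

/-- local lower bound for the free walk -/
def S_ll : Prop := ∀ (ι : Type) [Fintype ι] (μ : ι → ℝ) (v : ι → ℤ × ℤ), Good μ v →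
  m1 μ v = 0 → m2 μ v = 0 →
  ∃ (N m0 : ℕ) (c : ℝ), 0 < c ∧ ∀ m : ℕ, m0 ≤ m → ∀ x z : ℤ × ℤ,
    |(x.1 : ℝ) - z.1| ≤ Real.sqrt m → |(x.2 : ℝ) - z.2| ≤ Real.sqrt m →
    c / m ≤ Qn μ v Set.univ m (ind (box z N)) x

/-- steering through the quadrant at polynomial cost -/
def S_bump : Prop := ∀ (ι : Type) [Fintype ι] (μ : ι → ℝ) (v : ι → ℤ × ℤ), Good μ v →
  0 ≤ m1 μ v → 0 ≤ m2 μ v →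
  ∃ C ρ0 : ℝ, 0 < C ∧ 0 < ρ0 ∧ ∀ ρ : ℝ, ρ0 ≤ ρ → ∀ (m : ℕ) (x y : ℤ × ℤ),
    ρ ≤ (x.1 : ℝ) → ρ ≤ (x.2 : ℝ) → ρ ≤ (y.1 : ℝ) → ρ ≤ (y.2 : ℝ) →
    |(x.1 : ℝ) - y.1| * Real.sqrt (ρ ^ 2 + m) ≤ 16 * m →
    |(x.2 : ℝ) - y.2| * Real.sqrt (ρ ^ 2 + m) ≤ 16 * m →
    (ρ ^ 2 / (ρ ^ 2 + m)) ^ C ≤ Qn μ v K m
      (ind {z | |(z.1 : ℝ) - y.1 - m * m1 μ v| ≤ ρ ∧ |(z.2 : ℝ) - y.2 - m * m2 μ v| ≤ ρ}) x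

/-- lower bound for reaching the bulk -/
def S_bl : Prop := ∀ (ι : Type) [Fintype ι] (μ : ι → ℝ) (v : ι → ℤ × ℤ), Good μ v →
  m1 μ v = 0 → m2 μ v = 0 → ∀ δ ε : ℝ, 0 < δ → δ < 1 / 2 → 0 < ε →
  ∀ᶠ n : ℕ in Filter.atTop,
    (n : ℝ) ^ (-(pp μ v / 2) - ε) ≤ Qn μ v K ⌈(n : ℝ) ^ (1 - δ)⌉₊
      (ind (bulk ((n : ℝ) ^ (1 / 2 - δ)) (Real.sqrt n))) 0

/-- the six exponents for the tilted walk -/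
def S_walk : Prop := ∀ (ι : Type) [Fintype ι] (μ : ι → ℝ) (v : ι → ℤ × ℤ), Good μ v →
  ∀ x y : ℝ,
  (x = 1 → y = 1 → m1 μ v = 0 → m2 μ v = 0 →
    Expo (fun n => Qn μ v K n (wt x y) 0) (pp μ v / 2)) ∧
  (x = 1 → y = 1 → ((m1 μ v = 0 ∧ 0 < m2 μ v) ∨ (0 < m1 μ v ∧ m2 μ v = 0)) →
    Expo (fun n => Qn μ v K n (wt x y) 0) (1 / 2)) ∧
  (x = 1 → y = 1 → 0 < m1 μ v → 0 < m2 μ v →
    Expo (fun n => Qn μ v K n (wt x y) 0) 0) ∧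
  (((x = 1 ∧ 1 < y) ∨ (1 < x ∧ y = 1)) → m1 μ v = 0 → m2 μ v = 0 →
    Expo (fun n => Qn μ v K n (wt x y) 0) (pp μ v / 2 + 1)) ∧
  (((1 < x ∧ y = 1 ∧ m1 μ v = 0 ∧ 0 < m2 μ v) ∨ (x = 1 ∧ 1 < y ∧ 0 < m1 μ v ∧ m2 μ v = 0)) →
    Expo (fun n => Qn μ v K n (wt x y) 0) (3 / 2)) ∧
  (1 < x → 1 < y → m1 μ v = 0 → m2 μ v = 0 →
    Expo (fun n => Qn μ v K n (wt x y) 0) (pp μ v + 1))

end Pool.Agent.H890Z.Quad
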