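import Pool.Agent.H890Z.Quad.Defs

set_option autoImplicit false

namespace Pool.Agent.H890Z.Quad

open Finset

section ops
variable {ι G : Type} [Fintype ι] [Add G] {μ : ι → ℝ} {v : ι → G} {D : Set G}

@[simp] theorem Qn_zero (f : G → ℝ) : Qn μ v D 0 f = f := rfl

theorem Qn_succ (n : ℕ) (f : G → ℝ) : Qn μ v D (n + 1) f = Qop μ v D (Qn μ v D n f) :=
  Function.iterate_succ_apply' _ _ _

theorem Qn_succ' (n : ℕ) (f : G → ℝ) : Qn μ v D (n + 1) f = Qn μ v D n (Qop μ v D f) :=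
  Function.iterate_succ_apply _ _ _

theorem Qn_add (a b : ℕ) (f : G → ℝ) : Qn μ v D (a + b) f = Qn μ v D a (Qn μ v D b f) :=
  Function.iterate_add_apply _ _ _ _

theorem Qop_univ (f : G → ℝ) (x : G) : Qop μ v Set.univ f x = ∑ i, μ i * f (x + v i) := by
  simp [Qop]

theorem ind_of_mem {A : Set G} {x : G} (h : x ∈ A) : ind A x = 1 := by
  simp [ind, Set.indicator_of_mem h]

theorem ind_of_notMem {A : Set G} {x : G} (h : x ∉ A) : ind A x = 0 := by
  simp [ind, Set.indicator_of_notMem h]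

theorem ind_nonneg (A : Set G) (x : G) : 0 ≤ ind A x := by
  by_cases h : x ∈ A
  · rw [ind_of_mem h]; norm_num
  · rw [ind_of_notMem h]

theorem ind_le_one (A : Set G) (x : G) : ind A x ≤ 1 := by
  by_cases h : x ∈ A
  · rw [ind_of_mem h]
  · rw [ind_of_notMem h]; norm_num

theorem ind_mono {A B : Set G} (h : A ⊆ B) (x : G) : ind A x ≤ ind B x := by
  by_cases hx : x ∈ A
  · rw [ind_of_mem hx, ind_of_mem (h hx)]
  · rw [ind_of_notMem hx]; exact ind_nonneg _ _

theorem Qop_mono (hμ : ∀ i, 0 ≤ μ i) {f g : G → ℝ} (h : ∀ x ∈ D, f x ≤ g x) (x : G) :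
    Qop μ v D f x ≤ Qop μ v D g x := by
  refine Finset.sum_le_sum fun i _ => mul_le_mul_of_nonneg_left ?_ (hμ i)
  by_cases hx : x + v i ∈ D
  · rw [Set.indicator_of_mem hx, Set.indicator_of_mem hx]; exact h _ hx
  · rw [Set.indicator_of_notMem hx, Set.indicator_of_notMem hx]

/-- comparison with a subsolution -/
theorem Qn_sub (hμ : ∀ i, 0 ≤ μ i) (g : ℕ → G → ℝ) (f : G → ℝ) (n : ℕ)
    (h0 : ∀ x ∈ D, g 0 x ≤ f x)
    (hs : ∀ k < n, ∀ x ∈ D, g (k + 1) x ≤ Qop μ v D (g k) x) :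
    ∀ x ∈ D, g n x ≤ Qn μ v D n f x := by
  induction n with
  | zero => exact h0
  | succ n ih =>
    intro x hx
    rw [Qn_succ]
    exact (hs n (Nat.lt_succ_self n) x hx).trans
      (Qop_mono hμ (ih fun k hk => hs k (Nat.lt_succ_of_lt hk)) x)

/-- comparison with a supersolution -/
theorem Qn_super (hμ : ∀ i, 0 ≤ μ i) (g : ℕ → G → ℝ) (f : G → ℝ) (n : ℕ)
    (h0 : ∀ x ∈ D, f x ≤ g 0 x)
    (hs : ∀ k < n, ∀ x ∈ D, Qop μ v D (g k) x ≤ g (k + 1) x) :
    ∀ x ∈ D, Qn μ v D n f x ≤ g n x := by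
  induction n with
  | zero => exact h0
  | succ n ih =>
    intro x hx
    rw [Qn_succ]
    exact (Qop_mono hμ (ih fun k hk => hs k (Nat.lt_succ_of_lt hk)) x).trans
      (hs n (Nat.lt_succ_self n) x hx)

theorem Qn_mono (hμ : ∀ i, 0 ≤ μ i) {f g : G → ℝ} (h : ∀ x ∈ D, f x ≤ g x) (n : ℕ) :
    ∀ x ∈ D, Qn μ v D n f x ≤ Qn μ v D n g x :=
  Qn_sub hμ (fun k => Qn μ v D k f) g n h fun k _ x _ => by rw [Qn_succ]

theorem Qn_congr (hμ : ∀ i, 0 ≤ μ i) {f g : G → ℝ} (h : ∀ x ∈ D, f x = g x) (n : ℕ) :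
    ∀ x ∈ D, Qn μ v D n f x = Qn μ v D n g x := fun x hx =>
  le_antisymm (Qn_mono hμ (fun y hy => (h y hy).le) n x hx)
    (Qn_mono hμ (fun y hy => (h y hy).ge) n x hx)

theorem Qop_add (f g : G → ℝ) :
    Qop μ v D (fun x => f x + g x) = fun x => Qop μ v D f x + Qop μ v D g x := by
  funext x
  simp only [Qop, ← Finset.sum_add_distrib]
  refine Finset.sum_congr rfl fun i _ => ?_
  by_cases hx : x + v i ∈ D
  · simp only [Set.indicator_of_mem hx]; ring
  · simp only [Set.indicator_of_notMem hx]; ring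

theorem Qop_smul (c : ℝ) (f : G → ℝ) :
    Qop μ v D (fun x => c * f x) = fun x => c * Qop μ v D f x := by
  funext x
  simp only [Qop, Finset.mul_sum]
  refine Finset.sum_congr rfl fun i _ => ?_
  by_cases hx : x + v i ∈ D
  · simp only [Set.indicator_of_mem hx]; ring
  · simp only [Set.indicator_of_notMem hx]; ring

theorem Qn_fadd (n : ℕ) (f g : G → ℝ) :
    Qn μ v D n (fun x => f x + g x) = fun x => Qn μ v D n f x + Qn μ v D n g x := by
  induction n with
  | zero => rfl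
  | succ n ih => rw [Qn_succ, ih, Qop_add]; simp only [Qn_succ]

theorem Qn_smul (n : ℕ) (c : ℝ) (f : G → ℝ) :
    Qn μ v D n (fun x => c * f x) = fun x => c * Qn μ v D n f x := by
  induction n with
  | zero => rfl
  | succ n ih => rw [Qn_succ, ih, Qop_smul]; simp only [Qn_succ]

theorem Qn_fzero (n : ℕ) : Qn μ v D n (fun _ => 0) = fun _ => 0 := by
  have := Qn_smul (μ := μ) (v := v) (D := D) n 0 (fun _ => 0)
  simpa using this

theorem Qn_sum {α : Type} (T : Finset α) (n : ℕ) (f : α → G → ℝ) :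
    Qn μ v D n (fun x => ∑ a ∈ T, f a x) = fun x => ∑ a ∈ T, Qn μ v D n (f a) x := by
  classical
  induction T using Finset.induction_on with
  | empty => simpa using Qn_fzero n
  | insert a T ha ih =>
    simp only [Finset.sum_insert ha]
    rw [Qn_fadd, ih]

theorem Qn_nonneg (hμ : ∀ i, 0 ≤ μ i) {f : G → ℝ} (h : ∀ x ∈ D, 0 ≤ f x) (n : ℕ) :
    ∀ x ∈ D, 0 ≤ Qn μ v D n f x := fun x hx => by
  have := Qn_mono (v := v) hμ (f := fun _ => 0) h n x hx
  rwa [Qn_fzero] at this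

theorem Qop_le_const (hμ : ∀ i, 0 ≤ μ i) (h1 : ∑ i, μ i = 1) {f : G → ℝ} {c : ℝ} (hc : 0 ≤ c)
    (h : ∀ x ∈ D, f x ≤ c) (x : G) : Qop μ v D f x ≤ c := by
  calc Qop μ v D f x ≤ ∑ i, μ i * c := by
        refine Finset.sum_le_sum fun i _ => mul_le_mul_of_nonneg_left ?_ (hμ i)
        by_cases hx : x + v i ∈ D
        · rw [Set.indicator_of_mem hx]; exact h _ hx
        · rw [Set.indicator_of_notMem hx]; exact hc
    _ = c := by rw [← Finset.sum_mul, h1, one_mul]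

theorem Qn_le_const (hμ : ∀ i, 0 ≤ μ i) (h1 : ∑ i, μ i = 1) {f : G → ℝ} {c : ℝ} (hc : 0 ≤ c)
    (h : ∀ x ∈ D, f x ≤ c) (n : ℕ) : ∀ x ∈ D, Qn μ v D n f x ≤ c :=
  Qn_super hμ (fun _ _ => c) f n h fun _ _ x _ => Qop_le_const hμ h1 hc (fun _ _ => le_rfl) x

/-- lower bound through an intermediate set -/
theorem Qn_ge_of_ind (hμ : ∀ i, 0 ≤ μ i) {f : G → ℝ} {A : Set G} {c : ℝ}
    (h0 : ∀ x ∈ D, 0 ≤ f x) (h : ∀ x ∈ D, x ∈ A → c ≤ f x) (n : ℕ) :
    ∀ x ∈ D, c * Qn μ v D n (ind A) x ≤ Qn μ v D n f x := fun x hx => by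
  have := Qn_mono (v := v) hμ (f := fun y => c * ind A y) (g := f) (fun y hy => by
    by_cases hA : y ∈ A
    · rw [ind_of_mem hA, mul_one]; exact h y hy hA
    · rw [ind_of_notMem hA, mul_zero]; exact h0 y hy) n x hx
  rwa [Qn_smul] at this

/-- upper bound by a multiple of the survival probability -/
theorem Qn_le_mul_one (hμ : ∀ i, 0 ≤ μ i) {f : G → ℝ} {c : ℝ}
    (h : ∀ x ∈ D, f x ≤ c) (n : ℕ) :
    ∀ x ∈ D, Qn μ v D n f x ≤ c * Qn μ v D n (fun _ => 1) x := fun x hx => by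
  have := Qn_mono (v := v) hμ (f := f) (g := fun _ => c * 1) (fun y hy => by
    rw [mul_one]; exact h y hy) n x hx
  rwa [Qn_smul (f := fun _ => 1)] at this

/-- monotonicity in the domain -/
theorem Qn_dom (hμ : ∀ i, 0 ≤ μ i) {D' : Set G} (hD : D ⊆ D') {f : G → ℝ}
    (h : ∀ x ∈ D', 0 ≤ f x) (n : ℕ) : ∀ x ∈ D, Qn μ v D n f x ≤ Qn μ v D' n f x := by
  refine Qn_super hμ (fun k => Qn μ v D' k f) f n (fun _ _ => le_rfl) fun k _ x _ => ?_
  rw [Qn_succ]
  refine Finset.sum_le_sum fun i _ => mul_le_mul_of_nonneg_left ?_ (hμ i)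
  by_cases hx : x + v i ∈ D
  · rw [Set.indicator_of_mem hx, Set.indicator_of_mem (hD hx)]
  · rw [Set.indicator_of_notMem hx]
    exact Set.indicator_nonneg (Qn_nonneg hμ h k) _

/-- the cost of shrinking the domain is bounded by a supersolution -/
theorem Qn_dom_sub (hμ : ∀ i, 0 ≤ μ i) (h1 : ∑ i, μ i = 1) {D' : Set G} (hD : D ⊆ D')
    {f : G → ℝ} (hf1 : ∀ x ∈ D', f x ≤ 1) (b : ℕ → G → ℝ) (n : ℕ)
    (hb0 : ∀ k x, 0 ≤ b k x) (hb1 : ∀ k, ∀ x ∈ D', x ∉ D → 1 ≤ b k x)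
    (hbs : ∀ k < n, ∀ x ∈ D, Qop μ v Set.univ (b k) x ≤ b (k + 1) x) :
    ∀ x ∈ D, Qn μ v D' n f x - b n x ≤ Qn μ v D n f x := by
  refine Qn_sub hμ (fun k x => Qn μ v D' k f x - b k x) f n
    (fun x _ => by have := hb0 0 x; simp only [Qn_zero]; linarith) fun k hk x hx => ?_
  have h2 := hbs k hk x hx
  rw [Qop_univ] at h2
  simp only [Qn_succ]
  have : Qop μ v D' (Qn μ v D' k f) x - ∑ i, μ i * b k (x + v i) ≤
      Qop μ v D (fun x => Qn μ v D' k f x - b k x) x := by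
    simp only [Qop, ← Finset.sum_sub_distrib, ← mul_sub]
    refine Finset.sum_le_sum fun i _ => mul_le_mul_of_nonneg_left ?_ (hμ i)
    by_cases hx : x + v i ∈ D
    · rw [Set.indicator_of_mem hx, Set.indicator_of_mem (hD hx)]
    · rw [Set.indicator_of_notMem hx]
      by_cases hx' : x + v i ∈ D'
      · rw [Set.indicator_of_mem hx']
        have := Qn_le_const (v := v) hμ h1 zero_le_one hf1 k _ hx'
        have := hb1 k _ hx' hx
        linarith
      · rw [Set.indicator_of_notMem hx']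
        have := hb0 k (x + v i)
        linarith
  linarith

/-- intertwining along a map of state spaces -/
theorem Qn_comp {G' : Type} [Add G'] {v' : ι → G'} {D' : Set G'} (φ : G → G')
    (hφ : ∀ x i, φ (x + v i) = φ x + v' i) (n : ℕ) (f : G' → ℝ) :
    Qn μ v (φ ⁻¹' D') n (fun x => f (φ x)) = fun x => Qn μ v' D' n f (φ x) := by
  induction n with
  | zero => rfl
  | succ n ih =>
    rw [Qn_succ, ih, Qn_succ]
    funext x
    simp only [Qop]
    refine Finset.sum_congr rfl fun i _ => ?_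
    by_cases hx : φ x + v' i ∈ D'
    · rw [Set.indicator_of_mem hx, Set.indicator_of_mem (by simpa [hφ] using hx), hφ]
    · rw [Set.indicator_of_notMem hx, Set.indicator_of_notMem (by simpa [hφ] using hx)]

/-- a single step of weight `μ i` -/
theorem Qop_ge_single (hμ : ∀ i, 0 ≤ μ i) {f : G → ℝ} (h : ∀ x ∈ D, 0 ≤ f x) (x : G) (i : ι)
    (hx : x + v i ∈ D) : μ i * f (x + v i) ≤ Qop μ v D f x := by
  have := Finset.single_le_sum (f := fun j => μ j * D.indicator f (x + v j))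
    (fun j _ => mul_nonneg (hμ j) (Set.indicator_nonneg h _)) (Finset.mem_univ i)
  simpa [Set.indicator_of_mem hx, Qop] using this

/-- second moment of an additive functional -/
theorem Qn_sq (hμ : ∀ i, 0 ≤ μ i) (h1 : ∑ i, μ i = 1) (φ : G → ℝ) (d : ι → ℝ) (m s c : ℝ)
    (hφ : ∀ x i, φ (x + v i) = φ x + d i) (hm : ∑ i, μ i * d i = m)
    (hs : ∑ i, μ i * (d i - m) ^ 2 ≤ s) (n : ℕ) (x : G) :
    Qn μ v Set.univ n (fun y => (φ y - c) ^ 2) x ≤ (φ x + n * m - c) ^ 2 + n * s := by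
  refine Qn_super hμ (fun k y => (φ y + k * m - c) ^ 2 + k * s) _ n (fun y _ => by simp)
    (fun k _ y _ => ?_) x (Set.mem_univ x)
  rw [Qop_univ]
  have e : ∀ i, μ i * ((φ (y + v i) + k * m - c) ^ 2 + k * s) =
      μ i * ((φ y + (k + 1) * m - c) ^ 2 + k * s - 2 * (φ y + (k + 1) * m - c) * m)
        + 2 * (φ y + (k + 1) * m - c) * (μ i * d i) + μ i * (d i - m) ^ 2 := by
    intro i; rw [hφ]; ring
  simp only [e, Finset.sum_add_distrib, ← Finset.sum_mul, ← Finset.mul_sum, h1, hm]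
  push_cast
  nlinarith

/-- one-step exponential moment -/
theorem Qop_exp (hμ : ∀ i, 0 ≤ μ i) (h1 : ∑ i, μ i = 1) (d : ι → ℝ) (m B t : ℝ)
    (hm : ∑ i, μ i * d i = m) (hd : ∀ i, |d i| ≤ B) (ht : |t| * B ≤ 1) :
    ∑ i, μ i * Real.exp (t * d i) ≤ Real.exp (t * m + t ^ 2 * B ^ 2) := by
  have e : ∀ i, μ i * Real.exp (t * d i) ≤ μ i * (1 + t ^ 2 * B ^ 2) + t * (μ i * d i) := by
    intro i
    have h2 : |t * d i| ≤ |t| * B := by
      rw [abs_mul]; exact mul_le_mul_of_nonneg_left (hd i) (abs_nonneg t)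
    have h3 := Real.abs_exp_sub_one_sub_id_le (h2.trans ht)
    have h4 : (t * d i) ^ 2 ≤ t ^ 2 * B ^ 2 := by
      have := pow_le_pow_left₀ (abs_nonneg _) h2 2
      rwa [sq_abs, mul_pow (|t|), sq_abs] at this
    have h5 := (abs_le.mp h3).2
    have : Real.exp (t * d i) ≤ 1 + t ^ 2 * B ^ 2 + t * d i := by linarith
    have := mul_le_mul_of_nonneg_left this (hμ i)
    linarith
  calc ∑ i, μ i * Real.exp (t * d i)
      ≤ ∑ i, (μ i * (1 + t ^ 2 * B ^ 2) + t * (μ i * d i)) := Finset.sum_le_sum fun i _ => e i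
    _ = t * m + t ^ 2 * B ^ 2 + 1 := by
        simp only [Finset.sum_add_distrib, ← Finset.sum_mul, ← Finset.mul_sum, h1, hm]; ring
    _ ≤ _ := Real.add_one_le_exp _

/-- the exponential supersolution -/
theorem Qop_exp_step (hμ : ∀ i, 0 ≤ μ i) (h1 : ∑ i, μ i = 1) (φ : G → ℝ) (d : ι → ℝ)
    (m B t c : ℝ) (hφ : ∀ x i, φ (x + v i) = φ x + d i)
    (hm : ∑ i, μ i * d i = m) (hd : ∀ i, |d i| ≤ B) (ht : |t| * B ≤ 1) (x : G) :
    Qop μ v Set.univ (fun y => Real.exp (t * φ y + c)) x ≤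
      Real.exp (t * φ x + c + (t * m + t ^ 2 * B ^ 2)) := by
  rw [Qop_univ, Real.exp_add _ (t * m + t ^ 2 * B ^ 2)]
  have e : ∀ i, μ i * Real.exp (t * φ (x + v i) + c) =
      Real.exp (t * φ x + c) * (μ i * Real.exp (t * d i)) := by
    intro i
    rw [hφ, show t * (φ x + d i) + c = (t * φ x + c) + t * d i by ring, Real.exp_add]; ring
  simp only [e, ← Finset.mul_sum]
  exact mul_le_mul_of_nonneg_left (Qop_exp hμ h1 d m B t hm hd ht) (Real.exp_pos _).le

theorem Qn_exp (hμ : ∀ i, 0 ≤ μ i) (h1 : ∑ i, μ i = 1) (φ : G → ℝ) (d : ι → ℝ)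
    (m B t c : ℝ) (hφ : ∀ x i, φ (x + v i) = φ x + d i)
    (hm : ∑ i, μ i * d i = m) (hd : ∀ i, |d i| ≤ B) (ht : |t| * B ≤ 1) (n : ℕ) (x : G) :
    Qn μ v Set.univ n (fun y => Real.exp (t * φ y + c)) x ≤
      Real.exp (t * φ x + c + n * (t * m + t ^ 2 * B ^ 2)) := by
  refine Qn_super hμ (fun k y => Real.exp (t * φ y + (c + k * (t * m + t ^ 2 * B ^ 2)))) _ n
    (fun y _ => by simp) (fun k _ y _ => ?_) x (Set.mem_univ x) |>.trans (by rw [add_assoc])
  refine (Qop_exp_step hμ h1 φ d m B t _ hφ hm hd ht y).trans (le_of_eq ?_)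
  congr 1; push_cast; ring

end ops

section grp
variable {ι G : Type} [Fintype ι] [AddCommGroup G] {μ : ι → ℝ} {v : ι → G} {D : Set G}

/-- translation monotonicity -/
theorem Qn_shift (hμ : ∀ i, 0 ≤ μ i) (z : G) (hz : ∀ x ∈ D, x + z ∈ D) {f : G → ℝ}
    (h : ∀ x ∈ D, 0 ≤ f x) (n : ℕ) :
    ∀ x ∈ D, Qn μ v D n (fun y => f (y + z)) x ≤ Qn μ v D n f (x + z) := fun x hx => by
  have h1 := Qn_comp (μ := μ) (v := v) (v' := v) (D' := D) (fun y => y + z)
    (fun x i => add_right_comm _ _ _) n f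
  have h2 := Qn_dom (v := v) hμ (D := D) (D' := (fun y => y + z) ⁻¹' D) hz
    (f := fun y => f (y + z)) (fun y hy => h _ hy) n x hx
  rw [h1] at h2
  exact h2

/-- time reversal -/
theorem Qn_rev (hμ : ∀ i, 0 ≤ μ i) (n : ℕ) : ∀ x ∈ D, ∀ w ∈ D,
    Qn μ v D n (ind {w}) x = Qn μ (fun i => -v i) D n (ind {x}) w := by
  induction n with
  | zero =>
    intro x _ w _
    by_cases h : x = w
    · subst h; rfl
    · simp only [Qn_zero]
      rw [ind_of_notMem (by simpa using h), ind_of_notMem (by simpa using Ne.symm h)]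
  | succ n ih =>
    intro x hx w hw
    rw [Qn_succ', Qn_succ]
    have e : Qop μ v D (ind {w}) = fun y => ∑ i, μ i * ind {w + -v i} y := by
      funext y
      simp only [Qop]
      refine Finset.sum_congr rfl fun i _ => ?_
      congr 1
      by_cases h : y + v i = w
      · rw [h, Set.indicator_of_mem hw, ind_of_mem (Set.mem_singleton w),
          ind_of_mem (by rw [← h]; simp)]
      · have h' : ind {w + -v i} y = 0 := ind_of_notMem (by
          intro h2; apply h; rw [Set.mem_singleton_iff.mp h2]; simp)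
        rw [h']
        by_cases h3 : y + v i ∈ D
        · rw [Set.indicator_of_mem h3, ind_of_notMem (by simpa using h)]
        · rw [Set.indicator_of_notMem h3]
    rw [e, Qn_sum]
    simp only [Qn_smul, Qop]
    refine Finset.sum_congr rfl fun i _ => ?_
    congr 1
    by_cases h : w + -v i ∈ D
    · rw [Set.indicator_of_mem h, ih x hx _ h]
    · rw [Set.indicator_of_notMem h]
      have := Qn_congr (v := v) hμ (f := ind {w + -v i}) (g := fun _ => 0) (fun y hy =>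
        ind_of_notMem (by intro h2; rw [Set.mem_singleton_iff.mp h2] at hy; exact h hy)) n x hx
      rw [this, Qn_fzero]

end grp

/-- product of two independent walks -/
theorem Qn_prod {ι κ G H : Type} [Fintype ι] [Fintype κ] [Add G] [Add H] (μ : ι → ℝ) (ν : κ → ℝ)
    (v : ι → G) (w : κ → H) (D : Set G) (E : Set H) (f : G → ℝ) (g : H → ℝ) (n : ℕ) :
    Qn (fun p : ι × κ => μ p.1 * ν p.2) (fun p => (v p.1, w p.2)) (D ×ˢ E) n
      (fun z => f z.1 * g z.2) = fun z => Qn μ v D n f z.1 * Qn ν w E n g z.2 := by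
  induction n with
  | zero => rfl
  | succ n ih =>
    rw [Qn_succ, ih, Qn_succ, Qn_succ]
    funext z
    simp only [Qop, Fintype.sum_prod_type, Finset.sum_mul_sum]
    refine Finset.sum_congr rfl fun i _ => Finset.sum_congr rfl fun j _ => ?_
    by_cases h1 : z.1 + v i ∈ D
    · by_cases h2 : z.2 + w j ∈ E
      · rw [Set.indicator_of_mem h1, Set.indicator_of_mem h2,
          Set.indicator_of_mem (Set.mem_prod.mpr ⟨h1, h2⟩)]
        simp only [Prod.fst_add, Prod.snd_add]; ring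
      · rw [Set.indicator_of_notMem h2, Set.indicator_of_notMem (s := D ×ˢ E)
          (fun h => h2 (Set.mem_prod.mp h).2)]; ring
    · rw [Set.indicator_of_notMem h1, Set.indicator_of_notMem (s := D ×ˢ E)
        (fun h => h1 (Set.mem_prod.mp h).1)]; ring

end Pool.Agent.H890Z.Quad
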